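import Mathlib

namespace Pool.Agent.Results.MP_6d7a61_nt.Adm

open Matrix MeasureTheory Set

def IsLiouvilleMatrix {m n : ℕ} (A : Matrix (Fin m) (Fin n) ℝ) : Prop :=
  (∀ (q : Fin n → ℤ) (p : Fin m → ℤ), ¬ (q = 0 ∧ p = 0) →
    A *ᵥ (fun i => (q i : ℝ)) ≠ fun i => (p i : ℝ)) ∧
  ∀ N : ℝ, 0 < N → ∃ (p : Fin m → ℤ) (q : Fin n → ℤ), 1 < ‖fun i => (q i : ℝ)‖ ∧
    ‖A *ᵥ (fun i => (q i : ℝ)) - fun i => (p i : ℝ)‖ < ‖fun i => (q i : ℝ)‖ ^ (-N)

def NowhereConst {X : Type} [TopologicalSpace X] (g : X → ℝ) : Prop :=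
  ∀ U : Set X, IsOpen U → U.Nonempty → ¬ ∃ c, ∀ x ∈ U, g x = c

def LIC {m n : ℕ} (f : Matrix (Fin m) (Fin n) ℝ → Matrix (Fin m) (Fin n) ℝ) : Prop :=
  ¬ ∃ Ω : Set (Matrix (Fin m) (Fin n) ℝ), (interior Ω).Nonempty ∧
    ∃ (p : Fin m → ℤ) (q : Fin n → ℤ), q ≠ 0 ∧
      ∀ B ∈ f '' Ω, B *ᵥ (fun i => (q i : ℝ)) = fun i => (p i : ℝ)

def StronglyNC {m n : ℕ} (f : Matrix (Fin m) (Fin n) ℝ → Matrix (Fin m) (Fin n) ℝ) : Prop :=
  ∀ (R₁ : Matrix (Fin m) (Fin m) ℚ) (R₂ : Matrix (Fin n) (Fin n) ℚ)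
    (T : Matrix (Fin m) (Fin n) ℚ), IsUnit R₁ → IsUnit R₂ → ∀ i j,
      NowhereConst fun A => (R₁.map (fun x => (x : ℝ)) * f A * R₂.map (fun x => (x : ℝ)) +
        T.map (fun x => (x : ℝ))) i j

def Admissible (m n : ℕ) : Prop :=
  ∃ f : Matrix (Fin m) (Fin n) ℝ → Matrix (Fin m) (Fin n) ℝ,
    Continuous f ∧ StronglyNC f ∧ LIC f ∧ ∀ A, ¬ IsLiouvilleMatrix (f A)

lemma good_aux (ι : Type) [Fintype ι] [DecidableEq ι] (s : Finset ι) :
    ∃ g : ι → ℝ, ∀ (H : ℕ) (c : ι → ℤ), (∃ i ∈ s, c i ≠ 0) → (∀ i, |c i| ≤ H) →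
      1 / (2 * H + 1 : ℝ) ^ (Fintype.card ι + 2) ≤ |∑ i ∈ s, c i * g i| := by
  induction s using Finset.induction_on with
  | empty => exact ⟨0, by simp⟩
  | insert a s ha ih =>
    obtain ⟨g, hg⟩ := ih
    set N := Fintype.card ι with hN
    let box : ℕ → Finset (ι → ℤ) := fun H => Fintype.piFinset fun _ => Finset.Icc (-(H : ℤ)) H
    let bad : ℕ → Set ℝ := fun H => ⋃ c ∈ box H,
      Metric.ball (-(∑ i ∈ s, c i * g i) / c a) (1 / (2 * H + 1 : ℝ) ^ (N + 2))
    have hb : ∀ H, volume (bad H) ≤ ENNReal.ofReal (2 * (1 / ((H : ℝ) + 1 / 2) ^ 2)) := by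
      intro H
      refine (measure_biUnion_finset_le _ _).trans ?_
      simp only [Real.volume_ball, Finset.sum_const, nsmul_eq_mul]
      have hc : (box H).card = (2 * H + 1) ^ N := by
        simp only [box, Fintype.card_piFinset, Int.card_Icc, Finset.prod_const, Finset.card_univ]
        congr 1; omega
      rw [hc, ← ENNReal.ofReal_natCast, ← ENNReal.ofReal_mul (by positivity)]
      apply ENNReal.ofReal_le_ofReal
      push_cast
      rw [pow_add]
      have : (0 : ℝ) ≤ H := Nat.cast_nonneg H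
      field_simp
      nlinarith
    have hs : Summable fun H : ℕ => 2 * (1 / ((H : ℝ) + 1 / 2) ^ 2) := by
      apply Summable.mul_left
      have := (Real.summable_one_div_nat_add_rpow (1 / 2) 2).2 (by norm_num)
      refine this.congr fun H => ?_
      rw [abs_of_nonneg (by positivity)]
      norm_cast
    have hne : (⋃ H, bad H) ≠ univ := by
      intro h
      have h1 := (measure_iUnion_le (μ := volume) bad).trans (ENNReal.tsum_le_tsum hb)
      rw [h, Real.volume_univ, top_le_iff] at h1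
      exact hs.tsum_ofReal_ne_top h1
    obtain ⟨x, hx⟩ := (ne_univ_iff_exists_notMem _).1 hne
    refine ⟨Function.update g a x, fun H c hc hH => ?_⟩
    have e1 : ∑ i ∈ s, c i * Function.update g a x i = ∑ i ∈ s, c i * g i :=
      Finset.sum_congr rfl fun i hi => by
        rw [Function.update_of_ne (by rintro rfl; exact ha hi)]
    rw [Finset.sum_insert ha, Function.update_self, e1]
    by_cases h0 : c a = 0
    · rw [h0]
      simp only [Int.cast_zero, zero_mul, zero_add]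
      apply hg H c _ hH
      obtain ⟨i, hi, h⟩ := hc
      rcases Finset.mem_insert.1 hi with rfl | hi
      · exact absurd h0 h
      · exact ⟨i, hi, h⟩
    · have h1 : x ∉ Metric.ball (-(∑ i ∈ s, c i * g i) / c a)
          (1 / (2 * H + 1 : ℝ) ^ (N + 2)) := fun h => hx (mem_iUnion.2 ⟨H, mem_iUnion₂.2
            ⟨c, by simpa [box, abs_le] using hH, h⟩⟩)
      rw [Metric.mem_ball, not_lt, Real.dist_eq] at h1
      have h2 : (c a : ℝ) ≠ 0 := by exact_mod_cast h0
      have h3 : (1 : ℝ) ≤ |(c a : ℝ)| := by exact_mod_cast Int.one_le_abs h0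
      rw [show c a * x + ∑ i ∈ s, c i * g i = c a * (x - -(∑ i ∈ s, c i * g i) / c a) by
        field_simp; ring, abs_mul]
      nlinarith [abs_nonneg (x - -(∑ i ∈ s, c i * g i) / c a)]

lemma good (ι : Type) [Fintype ι] [DecidableEq ι] :
    ∃ g : ι → ℝ, (∀ (H : ℕ) (c : ι → ℤ), c ≠ 0 → (∀ i, |c i| ≤ H) →
      1 / (2 * H + 1 : ℝ) ^ (Fintype.card ι + 2) ≤ |∑ i, c i * g i|) ∧
      ∀ c : ι → ℚ, c ≠ 0 → ∑ i, c i * g i ≠ 0 := by
  obtain ⟨g, hg⟩ := good_aux ι Finset.univ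
  have h1 : ∀ (H : ℕ) (c : ι → ℤ), c ≠ 0 → (∀ i, |c i| ≤ H) →
      1 / (2 * H + 1 : ℝ) ^ (Fintype.card ι + 2) ≤ |∑ i, c i * g i| := fun H c hc hH =>
    hg H c (by simpa using Function.ne_iff.1 hc) hH
  refine ⟨g, h1, ?_⟩
  have h2 : LinearIndependent ℤ g := by
    rw [Fintype.linearIndependent_iff]
    intro c hc
    by_contra h
    have := h1 (∑ i, (c i).natAbs) c (fun h0 => h (fun i => by simp [h0])) (fun i => by
      rw [Int.abs_eq_natAbs]
      exact_mod_cast Finset.single_le_sum (f := fun i => (c i).natAbs) (fun _ _ => Nat.zero_le _)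
        (Finset.mem_univ i))
    simp only [zsmul_eq_mul] at hc
    rw [hc, abs_zero] at this
    exact absurd this (not_le.2 (by positivity))
  have h3 := (LinearIndependent.iff_fractionRing ℤ ℚ).1 h2
  rw [Fintype.linearIndependent_iff] at h3
  intro c hc h
  exact hc (funext (h3 c (by simpa [Rat.smul_def] using h)))

lemma two_le {n : ℕ} (q : Fin n → ℤ) (h : 1 < ‖fun i => (q i : ℝ)‖) :
    2 ≤ ‖fun i => (q i : ℝ)‖ := by
  by_contra hc
  refine absurd h (not_lt.2 ?_)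
  rw [pi_norm_le_iff_of_nonneg (by norm_num)]
  intro i
  have h3 : |(q i : ℝ)| < 2 := (norm_le_pi_norm (fun i => (q i : ℝ)) i).trans_lt (not_le.1 hc)
  have h4 : |q i| < 2 := by exact_mod_cast h3
  have h5 : |q i| ≤ 1 := by omega
  rw [Real.norm_eq_abs]
  exact_mod_cast h5

lemma nc {m n : ℕ} (g : Matrix (Fin (m + 1)) (Fin (n + 1)) ℝ → ℝ) (a b : ℝ) (hb : b ≠ 0)
    (h : ∀ A, g A = a + A 0 0 * b) : NowhereConst g := by
  rintro U hU ⟨x, hx⟩ ⟨c, hc⟩
  have h1 : Continuous fun t : ℝ => x + t • (Matrix.of fun _ _ => (1 : ℝ) :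
    Matrix (Fin (m + 1)) (Fin (n + 1)) ℝ) := by fun_prop
  have h2 := (hU.preimage h1).mem_nhds (x := 0) (by simpa using hx)
  obtain ⟨t, ht, ht0⟩ := Filter.nonempty_of_mem (f := nhdsWithin (0 : ℝ) {0}ᶜ)
    (Filter.inter_mem (mem_nhdsWithin_of_mem_nhds h2) self_mem_nhdsWithin)
  have h3 := hc _ ht
  rw [← hc x hx, h, h] at h3
  simp only [Matrix.add_apply, Matrix.smul_apply, Matrix.of_apply, smul_eq_mul, mul_one] at h3
  exact mul_ne_zero ht0 hb (by linarith)

lemma adm (m n : ℕ) : Admissible (m + 2) (n + 1) := by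
  obtain ⟨g, hg, hq⟩ := good (Fin (m + 2) ⊕ Fin (n + 1))
  have hl : ∀ u : Fin (m + 2) → ℚ, u ≠ 0 → ∑ i, u i * g (.inl i) ≠ 0 := fun u hu => by
    simpa using hq (Sum.elim u 0) (fun h => hu (funext fun i => congrFun h (.inl i)))
  have hr : ∀ u : Fin (n + 1) → ℚ, u ≠ 0 → ∑ i, u i * g (.inr i) ≠ 0 := fun u hu => by
    simpa using hq (Sum.elim 0 u) (fun h => hu (funext fun i => congrFun h (.inr i)))
  have h0 : g (.inl 0) ≠ 0 := by
    simpa [Fin.sum_univ_succ] using hl (Pi.single 0 1) (by simp)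
  let A0 : Matrix (Fin (m + 2)) (Fin (n + 1)) ℝ :=
    Matrix.of fun i j => if i = 1 then g (.inr j) / g (.inl 0) else 0
  let B : Matrix (Fin (m + 2)) (Fin (n + 1)) ℝ := Matrix.of fun i j => g (.inl i) * g (.inr j)
  refine ⟨fun A => A0 + A 0 0 • B, by fun_prop, ?_, ?_, ?_⟩
  · intro R₁ R₂ T h1 h2 i j
    refine nc _ ((R₁.map (fun x => (x : ℝ)) * A0 * R₂.map (fun x => (x : ℝ)) +
      T.map (fun x => (x : ℝ))) i j) ((∑ k, R₁ i k * g (.inl k)) * ∑ k, R₂ k j * g (.inr k))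
      (mul_ne_zero (hl _ ?_) (hr (fun k => R₂ k j) ?_)) ?_
    · exact (Matrix.linearIndependent_rows_of_isUnit h1).ne_zero i
    · exact (Matrix.linearIndependent_cols_of_isUnit h2).ne_zero j
    · intro A
      have : (R₁.map (fun x => (x : ℝ)) * B * R₂.map (fun x => (x : ℝ))) i j =
          (∑ k, R₁ i k * g (.inl k)) * ∑ k, R₂ k j * g (.inr k) := by
        simp only [Matrix.mul_apply, Matrix.map_apply, B, Matrix.of_apply, Finset.sum_mul,
          Finset.mul_sum]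
        exact Finset.sum_congr rfl fun _ _ => Finset.sum_congr rfl fun _ _ => by ring
      rw [← this]
      simp only [Matrix.mul_add, Matrix.add_mul, Matrix.mul_smul, Matrix.smul_mul,
        Matrix.add_apply, Matrix.smul_apply, smul_eq_mul]
      ring
  · rintro ⟨Ω, hΩ, p, q, hq0, h⟩
    refine nc (fun A => A 0 0 * (g (.inl 0) * ∑ k, ((q k : ℚ) : ℝ) * g (.inr k))) 0 _
      (mul_ne_zero h0 (hr (fun k => q k) ?_)) (fun A => (zero_add _).symm) _ isOpen_interior hΩ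
      ⟨p 0, fun A hA => ?_⟩
    · intro h; apply hq0; funext i; simpa using congrFun h i
    · rw [← congrFun (h _ ⟨A, interior_subset hA, rfl⟩) 0]
      simp only [Matrix.mulVec, dotProduct, A0, B, Matrix.add_apply, Matrix.smul_apply,
        Matrix.of_apply, smul_eq_mul, Finset.mul_sum]
      exact Finset.sum_congr rfl fun _ _ => by simp; ring
  · intro A h
    set M := A0 + A 0 0 • B with hM
    obtain ⟨C, hC0, hC⟩ := (LinearMap.toContinuousLinearMap (Matrix.mulVecLin M)).bound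
    set w := Fintype.card (Fin (m + 2) ⊕ Fin (n + 1)) + 2 with hw
    obtain ⟨t, ht⟩ := pow_unbounded_of_one_lt
      ((|g (.inl 0)| + |g (.inl 1)|) * (5 * (C + 1)) ^ w) (show (1 : ℝ) < 2 by norm_num)
    obtain ⟨p, q, h1, h2⟩ := h.2 ((w + t : ℕ) : ℝ) (by positivity)
    have hY := two_le q h1
    have h3 : ‖M *ᵥ fun i => (q i : ℝ)‖ ≤ C * ‖fun i => (q i : ℝ)‖ := hC _
    have hqi : ∀ i, |(q i : ℝ)| ≤ ‖fun i => (q i : ℝ)‖ :=
      fun i => norm_le_pi_norm (fun i => (q i : ℝ)) i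
    set Y := ‖fun i => (q i : ℝ)‖ with hYd
    rw [Real.rpow_neg (by linarith), Real.rpow_natCast] at h2
    have hd : ∀ i, |(M *ᵥ fun i => (q i : ℝ)) i - p i| < (Y ^ (w + t))⁻¹ :=
      fun i => (norm_le_pi_norm _ i).trans_lt h2
    have hd1 : (Y ^ (w + t))⁻¹ ≤ 1 := inv_le_one_of_one_le₀ (one_le_pow₀ h1.le)
    have hp : ∀ i, |(p i : ℝ)| ≤ (C + 1) * Y := fun i => by
      have a1 : |(M *ᵥ fun i => (q i : ℝ)) i| ≤ C * Y := (norm_le_pi_norm _ i).trans h3
      have a2 := hd i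
      rw [abs_le] at *
      rw [abs_lt] at a2
      constructor <;> linarith
    have hH : (C + 1) * Y ≤ ⌈(C + 1) * Y⌉₊ := Nat.le_ceil _
    have hH2 : (⌈(C + 1) * Y⌉₊ : ℝ) < (C + 1) * Y + 1 := Nat.ceil_lt_add_one (by positivity)
    have hCY : 0 ≤ C * Y := by positivity
    have key := hg ⌈(C + 1) * Y⌉₊
      (Sum.elim (fun i => if i = 0 then -p 1 else if i = 1 then p 0 else 0) q) (by
        intro h
        have : q = 0 := funext fun i => congrFun h (.inr i)
        rw [this] at hYd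
        simp only [Pi.zero_apply, Int.cast_zero] at hYd
        rw [hYd] at hY
        exact absurd hY (by simp [← Pi.zero_def])) (by
        rintro (i | i)
        · have : ∀ j, |p j| ≤ ⌈(C + 1) * Y⌉₊ := fun j => by exact_mod_cast (hp j).trans hH
          simp only [Sum.elim_inl]
          split_ifs <;> simp [this]
        · have : |(q i : ℝ)| ≤ ⌈(C + 1) * Y⌉₊ := (hqi i).trans (by linarith)
          exact_mod_cast this)
    have e : ∑ i, ((Sum.elim (fun i => if i = 0 then -p 1 else if i = 1 then p 0 else 0) q :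
        Fin (m + 2) ⊕ Fin (n + 1) → ℤ) i : ℝ) * g i =
        g (.inl 0) * ((M *ᵥ fun i => (q i : ℝ)) 1 - p 1) -
          g (.inl 1) * ((M *ᵥ fun i => (q i : ℝ)) 0 - p 0) := by
      have e1 : g (.inl 0) * (M *ᵥ fun i => (q i : ℝ)) 1 - g (.inl 1) * (M *ᵥ fun i => (q i : ℝ)) 0
          = ∑ k, q k * g (.inr k) := by
        simp only [Matrix.mulVec, dotProduct, hM, A0, B, Matrix.add_apply, Matrix.smul_apply,
          Matrix.of_apply, smul_eq_mul, Finset.mul_sum, ← Finset.sum_sub_distrib]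
        exact Finset.sum_congr rfl fun _ _ => by simp; field_simp; ring
      rw [Fintype.sum_sum_type, Fin.sum_univ_succ, Fin.sum_univ_succ]
      simp only [Sum.elim_inl, Sum.elim_inr, ← e1]
      simp [Fin.ext_iff]
      ring
    rw [e] at key
    have k2 := key.trans (abs_sub _ _)
    rw [abs_mul, abs_mul] at k2
    have k3 : 1 / (5 * (C + 1) * Y) ^ w ≤ 1 / (2 * (⌈(C + 1) * Y⌉₊ : ℝ) + 1) ^ w :=
      one_div_le_one_div_of_le (by positivity) (pow_le_pow_left₀ (by positivity) (by linarith) _)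
    have k4 : 1 / (5 * (C + 1) * Y) ^ w ≤ (|g (.inl 0)| + |g (.inl 1)|) * (Y ^ (w + t))⁻¹ := by
      have := mul_le_mul_of_nonneg_left (hd 1).le (abs_nonneg (g (.inl 0)))
      have := mul_le_mul_of_nonneg_left (hd 0).le (abs_nonneg (g (.inl 1)))
      linarith
    have k5 : (2 : ℝ) ^ t ≤ Y ^ t := pow_le_pow_left₀ (by norm_num) hY t
    rw [mul_pow, pow_add Y w t, ← div_eq_mul_inv, div_le_div_iff₀ (by positivity) (by positivity)] at k4
    have k6 : 0 < Y ^ w := by positivity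
    have k7 := mul_lt_mul_of_pos_right (ht.trans_le k5) k6
    linarith

lemma nadm (n : ℕ) : ¬ Admissible 1 (n + 1) := by
  rintro ⟨f, hf, hs, hl, h⟩
  have hB : BaireSpace (Matrix (Fin 1) (Fin (n + 1)) ℝ) :=
    inferInstanceAs (BaireSpace (Fin 1 → Fin (n + 1) → ℝ))
  have hL : LocallyConnectedSpace (Matrix (Fin 1) (Fin (n + 1)) ℝ) :=
    inferInstanceAs (LocallyConnectedSpace (Fin 1 → Fin (n + 1) → ℝ))
  have h0 : NowhereConst fun A => f A 0 0 := by
    simpa [Matrix.map_one, Matrix.map_zero] using hs 1 1 0 isUnit_one isUnit_one 0 0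
  let G : ((Fin 1 → ℤ) × (Fin (n + 1) → ℤ)) ⊕ ℕ → Set (Matrix (Fin 1) (Fin (n + 1)) ℝ) :=
    Sum.elim (fun z => {A | z.2 ≠ 0 → f A *ᵥ (fun i => (z.2 i : ℝ)) ≠ fun i => (z.1 i : ℝ)})
      (fun N => ⋃ z : (Fin 1 → ℤ) × (Fin (n + 1) → ℤ), {A | 1 < ‖fun i => (z.2 i : ℝ)‖ ∧
        ‖f A *ᵥ (fun i => (z.2 i : ℝ)) - fun i => (z.1 i : ℝ)‖ < ‖fun i => (z.2 i : ℝ)‖ ^ (-N : ℝ)})
  have ho : ∀ i, IsOpen (G i) := by
    rintro (z | N)
    · by_cases hz : z.2 = 0
      · simp [G, hz]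
      · simp only [G, Sum.elim_inl, ne_eq, hz, not_false_eq_true, forall_const]
        exact isOpen_ne_fun (by fun_prop) continuous_const
    · refine isOpen_iUnion fun z => IsOpen.inter isOpen_const ?_
      exact isOpen_lt (f := fun A => ‖f A *ᵥ (fun i => (z.2 i : ℝ)) - fun i => (z.1 i : ℝ)‖)
        (by fun_prop) continuous_const
  have hd : ∀ i, Dense (G i) := by
    rintro (z | N)
    · rw [← compl_compl (G _), ← interior_eq_empty_iff_dense_compl]
      by_contra hc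
      obtain ⟨A, hA⟩ := nonempty_iff_ne_empty.2 hc
      have hA' := interior_subset hA
      simp only [G, Sum.elim_inl, mem_compl_iff, mem_ofPred_eq, Classical.not_imp] at hA'
      refine hl ⟨_, ⟨A, hA⟩, z.1, z.2, hA'.1, ?_⟩
      rintro _ ⟨B, hB, rfl⟩
      simp only [G, Sum.elim_inl, mem_compl_iff, mem_ofPred_eq, Classical.not_imp, not_not] at hB
      exact hB.2
    · rw [dense_iff_inter_open]
      rintro U hU ⟨x, hx⟩
      have hV := hU.connectedComponentIn (x := x)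
      have hxV := mem_connectedComponentIn hx
      have h1 := h0 _ hV ⟨x, hxV⟩
      push Not at h1
      obtain ⟨y, hy, hne⟩ := h1 (f x 0 0)
      have hc : ContinuousOn (fun A => f A 0 0) (connectedComponentIn U x) := by fun_prop
      obtain ⟨r, A, hA, hr⟩ : ∃ r : ℚ, ∃ A ∈ connectedComponentIn U x, f A 0 0 = r := by
        rcases lt_or_gt_of_ne hne with h | h
        · obtain ⟨r, h1, h2⟩ := exists_rat_btwn h
          exact ⟨r, isPreconnected_connectedComponentIn.intermediate_value hy hxV hc ⟨h1.le, h2.le⟩⟩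
        · obtain ⟨r, h1, h2⟩ := exists_rat_btwn h
          exact ⟨r, isPreconnected_connectedComponentIn.intermediate_value hxV hy hc ⟨h1.le, h2.le⟩⟩
      have hn : 1 < ‖fun i => ((Pi.single 0 (2 * r.den) : Fin (n + 1) → ℤ) i : ℝ)‖ := by
        refine lt_of_lt_of_le ?_ (norm_le_pi_norm _ 0)
        have : (1 : ℝ) ≤ r.den := by exact_mod_cast r.pos
        simp
        linarith
      refine ⟨A, connectedComponentIn_subset _ _ hA, mem_iUnion.2
        ⟨(fun _ => 2 * r.num, Pi.single 0 (2 * r.den)), hn, ?_⟩⟩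
      refine lt_of_eq_of_lt ?_ (Real.rpow_pos_of_pos (by linarith) _)
      rw [norm_eq_zero]
      funext i
      rw [Subsingleton.elim i 0]
      simp [Matrix.mulVec, dotProduct, Pi.single_apply, hr, Rat.cast_def]
      field_simp
      ring
  obtain ⟨A, hA⟩ := (dense_iInter_of_isOpen ho hd).nonempty
  rw [mem_iInter] at hA
  refine h A ⟨fun q p hqp => ?_, fun N _ => ?_⟩
  · by_cases hq : q = 0
    · intro h1
      refine hqp ⟨hq, funext fun i => ?_⟩
      have := congrFun h1 i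
      simp only [hq, Pi.zero_apply, Int.cast_zero, Matrix.mulVec, dotProduct, mul_zero,
        Finset.sum_const_zero] at this
      exact_mod_cast this.symm
    · exact hA (.inl (p, q)) hq
  · obtain ⟨z, h1, h2⟩ := mem_iUnion.1 (hA (.inr ⌈N⌉₊))
    exact ⟨z.1, z.2, h1, h2.trans_le
      (Real.rpow_le_rpow_of_exponent_le h1.le (neg_le_neg (Nat.le_ceil N)))⟩

theorem result (m n : ℕ) (hm : 1 ≤ m) (hn : 1 ≤ n) : Admissible m n ↔ 2 ≤ m := by
  obtain ⟨n, rfl⟩ := Nat.exists_eq_add_of_le' hn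
  constructor
  · intro h
    by_contra hc
    obtain rfl : m = 1 := by omega
    exact nadm n h
  · intro h
    obtain ⟨m, rfl⟩ := Nat.exists_eq_add_of_le' h
    exact adm m n

end Pool.Agent.Results.MP_6d7a61_nt.Adm
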